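import Pool.Agent.Helper396.Eff

/-!
# Oscillation sets of computable maps are uniformly effectively open

Generalisation of `Pool.Agent.Helper396.Eff` (left shift on Cantor space) to computable maps of the
space of all sequences over a countable alphabet.
-/

set_option autoImplicit false

namespace Pool.Agent.Y588.EB

open Nat.Partrec (Code)
open MeasureTheory Filter
open Pool.Agent.Helper396 (list_any list_foldl comp_of c_lt c_le c_eq c_and c_mul c_add c_sub c_max
  c_min comp_sum comp_sup re_of_exists ev comp_ev ev_mono code_of_re vv gg vv_congr gg_le gg_mono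
  SS SS_nice Wit WitAll Tup stepb stepb_spec Wit_congr)

variable {α : Type} [Primcodable α] [Inhabited α]

/-- extension of a string by a fixed letter -/
def ext (x : List α) : ℕ → α := fun i => x.getD i default

/-- initial segments -/
def pre (y : ℕ → α) (n : ℕ) : List α := (List.range n).map y

omit [Primcodable α] [Inhabited α] in
theorem pre_length (y : ℕ → α) (n : ℕ) : (pre y n).length = n := by simp [pre]

omit [Primcodable α] [Inhabited α] in
theorem pre_congr {y y' : ℕ → α} {n : ℕ} (h : ∀ i < n, y i = y' i) : pre y n = pre y' n := by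
  unfold pre
  exact List.map_congr_left fun i hi => h i (List.mem_range.1 hi)

omit [Primcodable α] in
theorem ext_pre {y : ℕ → α} {n i : ℕ} (hi : i < n) : ext (pre y n) i = y i := by
  simp [ext, pre, hi, List.getD_eq_getElem?_getD]

omit [Primcodable α] in
theorem ext_of_cyl {y : ℕ → α} {x : List α} (h : pre y x.length = x) {i : ℕ}
    (hi : i < x.length) : ext x i = y i := by
  rw [← ext_pre (y := y) hi, h]

omit [Primcodable α] [Inhabited α] in
theorem take_pre (y : ℕ → α) {n l : ℕ} (h : l ≤ n) : (pre y n).take l = pre y l := by
  unfold pre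
  rw [← List.map_take, List.take_range, min_eq_left h]

omit [Primcodable α] [Inhabited α] in
theorem pre_take {y : ℕ → α} {x : List α} (h : pre y x.length = x) (l : ℕ) :
    pre y (x.take l).length = x.take l := by
  rw [List.length_take]
  conv_rhs => rw [← h]
  rcases le_total l x.length with h1 | h1
  · rw [min_eq_left h1, take_pre y h1]
  · rw [min_eq_right h1, List.take_of_length_le (by rw [pre_length]; exact h1)]

theorem comp_pre_ext : Computable₂ (fun (x : List α) (n : ℕ) => pre (ext x) n) := by
  have h1 : Computable₂ (fun (p : List α × ℕ) (i : ℕ) => (p.1)[i]?.getD default) := by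
    refine Computable.option_getD ?_ (Computable.const default)
    exact Computable.list_getElem?.comp (Computable.fst.comp Computable.fst) Computable.snd
  have h2 := Pool.Agent.Helper396.list_map (f := fun p : List α × ℕ => List.range p.2)
    (Primrec.list_range.to_comp.comp Computable.snd) h1
  refine h2.of_eq fun p => ?_
  unfold pre ext
  refine List.map_congr_left fun i _ => ?_
  rw [List.getD_eq_getElem?_getD]

/-- encoding of the enumerated objects -/
def enc (p : (ℕ × ℕ × ℕ) × List α) : ℕ := Encodable.encode p

omit [Inhabited α] in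
theorem comp_enc : Computable (enc (α := α)) := Computable.encode

section family

variable (c : Code) (A C : ℕ)

/-- acceptance of level `j` at stage `m` -/
def acc (m j : ℕ) (y : ℕ → α) : Bool :=
  (List.range (m + 1)).any fun l =>
    ev c m (enc ((j, A, C), pre y l))

/-- approximation of the level function -/
def FF (m : ℕ) (y : ℕ → α) : ℕ :=
  ∑ j ∈ Finset.range m, if acc c A C m (j + 1) y = true then 1 else 0

/-- truncated family -/
def GG (T : (ℕ → α) → (ℕ → α)) (M s : ℕ) (y : ℕ → α) : ℕ :=
  gg M (fun s' i => FF c A C s' (T^[i] y)) s 0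

omit [Inhabited α] in
theorem acc_mono {m m' j : ℕ} (h : m ≤ m') {y : ℕ → α} (ha : acc c A C m j y = true) :
    acc c A C m' j y = true := by
  unfold acc at *
  rw [List.any_eq_true] at ha ⊢
  obtain ⟨l, hl, hs⟩ := ha
  exact ⟨l, by rw [List.mem_range] at hl ⊢; omega, ev_mono h hs⟩

omit [Inhabited α] in
theorem acc_congr {m j : ℕ} {y y' : ℕ → α} (h : ∀ i < m, y i = y' i) :
    acc c A C m j y = acc c A C m j y' := by
  unfold acc
  rw [Bool.eq_iff_iff, List.any_eq_true, List.any_eq_true]
  constructor
  · rintro ⟨l, hl, hs⟩
    have hl' := List.mem_range.1 hl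
    exact ⟨l, hl, by rw [← pre_congr (n := l) fun i hi => h i (by omega)]; exact hs⟩
  · rintro ⟨l, hl, hs⟩
    have hl' := List.mem_range.1 hl
    exact ⟨l, hl, by rw [pre_congr (n := l) fun i hi => h i (by omega)]; exact hs⟩

omit [Inhabited α] in
theorem FF_mono (y : ℕ → α) : Monotone fun m => FF c A C m y := by
  intro m m' h
  simp only [FF]
  calc ∑ j ∈ Finset.range m, (if acc c A C m (j + 1) y = true then 1 else 0)
      ≤ ∑ j ∈ Finset.range m, (if acc c A C m' (j + 1) y = true then 1 else 0) := by
        refine Finset.sum_le_sum fun j _ => ?_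
        by_cases h1 : acc c A C m (j + 1) y = true
        · rw [if_pos h1, if_pos (acc_mono c A C h h1)]
        · rw [if_neg h1]; exact Nat.zero_le _
    _ ≤ _ := Finset.sum_le_sum_of_subset (Finset.range_mono h)

omit [Inhabited α] in
theorem FF_congr {m : ℕ} {y y' : ℕ → α} (h : ∀ i < m, y i = y' i) :
    FF c A C m y = FF c A C m y' := by
  unfold FF
  refine Finset.sum_congr rfl fun j _ => ?_
  rw [acc_congr c A C h]

variable (T : (ℕ → α) → (ℕ → α))

omit [Inhabited α] in
theorem GG_le (M s : ℕ) (y : ℕ → α) : GG c A C T M s y ≤ M := gg_le _ _ _ _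

omit [Inhabited α] in
theorem GG_mono (M : ℕ) (y : ℕ → α) : Monotone fun s => GG c A C T M s y :=
  gg_mono M (a := fun s i => FF c A C s (T^[i] y)) (fun _ => FF_mono c A C _) 0

omit [Inhabited α] in
theorem GG_iter (M s i : ℕ) (y : ℕ → α) :
    GG c A C T M s (T^[i] y) = gg M (fun s i => FF c A C s (T^[i] y)) s i := by
  have e : ∀ k, T^[k] (T^[i] y) = T^[k + i] y := fun k =>
    (Function.iterate_add_apply T k i y).symm
  have h1 : vv M s (fun k => FF c A C s (T^[k] (T^[i] y))) (0 + 1)
      = vv M s (fun k => FF c A C s (T^[k] y)) (i + 1) := by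
    unfold vv
    refine Finset.sup_congr rfl fun k _ => ?_
    congr 1
    refine Finset.sum_congr rfl fun j _ => ?_
    simp only
    rw [e]
    congr 2
    ring
  unfold GG gg
  simp only
  rw [h1]
  rfl

end family

theorem comp_acc (c : Code) {β : Type} [Primcodable β] {A C m j : β → ℕ} {x : β → List α}
    (hA : Computable A) (hC : Computable C) (hm : Computable m) (hj : Computable j)
    (hx : Computable x) :
    Computable (fun b => acc c (A b) (C b) (m b) (j b) (ext (x b))) := by
  unfold acc
  refine list_any (f := fun b => List.range (m b + 1))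
    (p := fun b l => ev c (m b) (enc ((j b, A b, C b), pre (ext (x b)) l))) ?_ ?_
  · exact Primrec.list_range.to_comp.comp (Computable.succ.comp hm)
  · have hp : Computable (fun q : β × ℕ => pre (ext (x q.1)) q.2) :=
      comp_pre_ext.comp (hx.comp Computable.fst) Computable.snd
    have he : Computable (fun q : β × ℕ =>
        enc ((j q.1, A q.1, C q.1), pre (ext (x q.1)) q.2)) :=
      comp_enc.comp (((hj.comp Computable.fst).pair
        ((hA.comp Computable.fst).pair (hC.comp Computable.fst))).pair hp)
    exact (comp_ev c).comp (hm.comp Computable.fst) he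

theorem comp_FF (c : Code) {β : Type} [Primcodable β] {A C m : β → ℕ} {x : β → List α}
    (hA : Computable A) (hC : Computable C) (hm : Computable m) (hx : Computable x) :
    Computable (fun b => FF c (A b) (C b) (m b) (ext (x b))) := by
  unfold FF
  refine comp_sum (f := m)
    (g := fun b j => if acc c (A b) (C b) (m b) (j + 1) (ext (x b)) = true then 1 else 0) hm ?_
  have h1 : Computable (fun q : β × ℕ =>
      acc c (A q.1) (C q.1) (m q.1) (q.2 + 1) (ext (x q.1))) :=
    comp_acc c (hA.comp Computable.fst) (hC.comp Computable.fst) (hm.comp Computable.fst)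
      (Computable.succ.comp Computable.snd) (hx.comp Computable.fst)
  refine (Computable.cond h1 (Computable.const 1) (Computable.const 0)).of_eq fun q => ?_
  cases h : acc c (A q.1) (C q.1) (m q.1) (q.2 + 1) (ext (x q.1)) <;> simp [h]

/-- the sums computed from a list of initial segments of the points of an orbit -/
def SD (c : Code) (A C M c' : ℕ) (D : List (List α)) (w s : ℕ) : ℕ :=
  c' * ∑ i ∈ Finset.range w, gg M (fun s' i => FF c A C s' (ext (D.getD i []))) s i

omit [Inhabited α] in
theorem comp_getD {β : Type} [Primcodable β] {f : β → List (List α)} {g : β → ℕ}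
    (hf : Computable f) (hg : Computable g) : Computable (fun b => (f b).getD (g b) []) := by
  refine (Computable.option_getD (Computable.list_getElem?.comp hf hg)
    (Computable.const [])).of_eq fun b => ?_
  rw [List.getD_eq_getElem?_getD]

theorem comp_SD (c : Code) {β : Type} [Primcodable β] {A C M c' w s : β → ℕ}
    {D : β → List (List α)} (hA : Computable A) (hC : Computable C) (hM : Computable M)
    (hc' : Computable c') (hD : Computable D) (hw : Computable w) (hs : Computable s) :
    Computable (fun b => SD c (A b) (C b) (M b) (c' b) (D b) (w b) (s b)) := by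
  unfold SD
  refine c_mul.comp hc' ?_
  refine comp_sum (f := w) (g := fun b i =>
    gg (M b) (fun s' i => FF c (A b) (C b) s' (ext ((D b).getD i []))) (s b) i) hw ?_
  have hv : Computable (fun p : β × ℕ =>
      vv (M p.1) (s p.1) (fun i => FF c (A p.1) (C p.1) (s p.1) (ext ((D p.1).getD i [])))
        (p.2 + 1)) := by
    unfold vv
    refine comp_sup (f := fun p : β × ℕ => s p.1 + 1)
      (g := fun p k => (∑ j ∈ Finset.range k,
        FF c (A p.1) (C p.1) (s p.1) (ext ((D p.1).getD (p.2 + 1 + j) []))) - M p.1 * k)
      (Computable.succ.comp (hs.comp Computable.fst)) ?_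
    refine c_sub.comp ?_ (c_mul.comp (hM.comp (Computable.fst.comp Computable.fst))
      Computable.snd)
    refine comp_sum (f := fun q : (β × ℕ) × ℕ => q.2)
      (g := fun q j => FF c (A q.1.1) (C q.1.1) (s q.1.1)
        (ext ((D q.1.1).getD (q.1.2 + 1 + j) []))) Computable.snd ?_
    have h0 : Computable (fun r : ((β × ℕ) × ℕ) × ℕ => r.1.1.1) :=
      Computable.fst.comp (Computable.fst.comp Computable.fst)
    refine comp_FF c (A := fun r : ((β × ℕ) × ℕ) × ℕ => A r.1.1.1) (C := fun r => C r.1.1.1)
      (m := fun r => s r.1.1.1) (x := fun r => (D r.1.1.1).getD (r.1.1.2 + 1 + r.2) [])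
      (hA.comp h0) (hC.comp h0) (hs.comp h0) ?_
    refine comp_getD (hD.comp h0) ?_
    exact c_add.comp (c_add.comp (Computable.snd.comp (Computable.fst.comp Computable.fst))
        (Computable.const 1)) Computable.snd
  have h1 : Computable (fun p : β × ℕ =>
      FF c (A p.1) (C p.1) (s p.1) (ext ((D p.1).getD p.2 []))) :=
    comp_FF c (hA.comp Computable.fst) (hC.comp Computable.fst) (hs.comp Computable.fst)
      (comp_getD (hD.comp Computable.fst) Computable.snd)
  exact c_min.comp (hM.comp Computable.fst) (c_add.comp h1 hv)

/-- the witness check is computable -/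
theorem comp_chk {β : Type} [Primcodable β] {S : β → ℕ → ℕ → ℕ} {a B L : β → ℕ}
    {w : β → List Tup}
    (hS : Computable (fun q : β × (ℕ × ℕ) => S q.1 q.2.1 q.2.2)) (ha : Computable a)
    (hB : Computable B) (hL : Computable L) (hw : Computable w) :
    Computable (fun b => ((w b).foldl (stepb (a b) (B b) (S b) (L b)) (true, 0)).1) := by
  refine Computable.fst.comp ?_
  have hh : Computable₂ (fun (p : β) (q : (Bool × ℕ) × Tup) =>
      stepb (a p) (B p) (S p) (L p) q.1 q.2) := by
    -- projections
    have hx : Computable (fun q : β × ((Bool × ℕ) × Tup) => q.1) := Computable.fst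
    have hok : Computable (fun q : β × ((Bool × ℕ) × Tup) => q.2.1.1) :=
      Computable.fst.comp (Computable.fst.comp Computable.snd)
    have hlo : Computable (fun q : β × ((Bool × ℕ) × Tup) => q.2.1.2) :=
      Computable.snd.comp (Computable.fst.comp Computable.snd)
    have h1 : Computable (fun q : β × ((Bool × ℕ) × Tup) => q.2.2.1) :=
      Computable.fst.comp (Computable.snd.comp Computable.snd)
    have h2' : Computable (fun q : β × ((Bool × ℕ) × Tup) => q.2.2.2) :=
      Computable.snd.comp (Computable.snd.comp Computable.snd)
    have h2 : Computable (fun q : β × ((Bool × ℕ) × Tup) => q.2.2.2.1) :=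
      Computable.fst.comp h2'
    have h3' : Computable (fun q : β × ((Bool × ℕ) × Tup) => q.2.2.2.2) :=
      Computable.snd.comp h2'
    have h3 : Computable (fun q : β × ((Bool × ℕ) × Tup) => q.2.2.2.2.1) :=
      Computable.fst.comp h3'
    have h4' : Computable (fun q : β × ((Bool × ℕ) × Tup) => q.2.2.2.2.2) :=
      Computable.snd.comp h3'
    have h4 : Computable (fun q : β × ((Bool × ℕ) × Tup) => q.2.2.2.2.2.1) :=
      Computable.fst.comp h4'
    have h5 : Computable (fun q : β × ((Bool × ℕ) × Tup) => q.2.2.2.2.2.2) :=
      Computable.snd.comp h4'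
    have hL' : Computable (fun q : β × ((Bool × ℕ) × Tup) => L q.1) := hL.comp hx
    have ha' : Computable (fun q : β × ((Bool × ℕ) × Tup) => a q.1) := ha.comp hx
    have ha2 : Computable (fun q : β × ((Bool × ℕ) × Tup) => a q.1 + 2) :=
      c_add.comp ha' (Computable.const 2)
    have hB' : Computable (fun q : β × ((Bool × ℕ) × Tup) => B q.1) := hB.comp hx
    have hSS : ∀ {u v : β × ((Bool × ℕ) × Tup) → ℕ}, Computable u →
        Computable v → Computable (fun q => S q.1 (u q) (v q)) := by
      intro u v hu hv
      exact comp_of hS (hx.pair (hu.pair hv)) fun _ => rfl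
    unfold stepb
    refine Computable.pair ?_ (Computable.succ.comp h5)
    refine c_and.comp hok (c_and.comp ?_ ?_)
    · refine c_and.comp (c_le.comp hlo h1) ?_
      refine c_and.comp (c_lt.comp h1 h2) ?_
      refine c_and.comp (c_lt.comp h2 h3) ?_
      refine c_and.comp (c_lt.comp h3 h4) ?_
      refine c_and.comp (c_le.comp h4 h5) ?_
      exact c_le.comp h5 hL'
    · refine c_and.comp (c_le.comp (c_mul.comp ha2 h1) (hSS h1 h2)) ?_
      refine c_and.comp (c_le.comp (hSS h2 h2) (c_mul.comp ha' h2)) ?_
      refine c_and.comp (c_lt.comp (c_mul.comp hB' h2) h3) ?_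
      refine c_and.comp (c_le.comp (hSS h3 h3) (c_mul.comp ha' h3)) ?_
      exact c_le.comp (c_mul.comp ha2 h4) (hSS h4 h5)
  have := list_foldl (f := w)
    (g := fun _ => ((true, 0) : Bool × ℕ))
    (h := fun p q => stepb (a p) (B p) (S p) (L p) q.1 q.2)
    hw (Computable.const _) hh
  exact this

section chain

variable (cT : Code)

/-- the string `u` is seen in `k` steps to force the image to start with `v` -/
def stp (k : ℕ) (v u : List α) : Bool :=
  (List.range (u.length + 1)).any fun l => ev cT k (Encodable.encode (v, u.take l))

/-- the list of strings is seen in `k` steps to consist of initial segments along an orbit -/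
def chainOK (k : ℕ) (D : List (List α)) : Bool :=
  !((List.range (D.length - 1)).any fun i => !(stp cT k (D.getD (i + 1) []) (D.getD i [])))

/-- all strings of the list are at least as long as the list -/
def lensOK (D : List (List α)) : Bool :=
  !((List.range D.length).any fun i => decide ((D.getD i []).length < D.length))

omit [Inhabited α] in
theorem chainOK_iff {k : ℕ} {D : List (List α)} : chainOK cT k D = true ↔
    ∀ i, i + 1 < D.length → stp cT k (D.getD (i + 1) []) (D.getD i []) = true := by
  unfold chainOK
  rw [Bool.not_eq_true', List.any_eq_false]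
  constructor
  · intro h i hi
    have := h i (List.mem_range.2 (by omega))
    simpa using this
  · intro h i hi
    have := h i (by have := List.mem_range.1 hi; omega)
    simpa using this

omit [Primcodable α] [Inhabited α] in
theorem lensOK_iff {D : List (List α)} : lensOK D = true ↔
    ∀ i, i < D.length → D.length ≤ (D.getD i []).length := by
  unfold lensOK
  rw [Bool.not_eq_true', List.any_eq_false]
  constructor
  · intro h i hi
    have := h i (List.mem_range.2 hi)
    simpa using this
  · intro h i hi
    have := h i (List.mem_range.1 hi)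
    simpa using this

theorem comp_not {β : Type} [Primcodable β] {f : β → Bool} (hf : Computable f) :
    Computable (fun b => !(f b)) := by
  refine (Computable.cond hf (Computable.const false) (Computable.const true)).of_eq fun b => ?_
  cases f b <;> rfl

omit [Inhabited α] in
theorem comp_take : Computable₂ (fun (x : List α) (n : ℕ) => x.take n) := by
  have hh : Computable₂ (fun (p : List α × ℕ) (q : ℕ × List α) =>
      (Option.casesOn (motive := fun _ => List α) ((p.1)[q.1]?) q.2 (fun b => q.2 ++ [b]))) := by
    refine Computable.option_casesOn (o := fun r : (List α × ℕ) × (ℕ × List α) => r.1.1[r.2.1]?)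
      (f := fun r => r.2.2) (g := fun r b => r.2.2 ++ [b]) ?_ ?_ ?_
    · exact Computable.list_getElem?.comp (Computable.fst.comp Computable.fst)
        (Computable.fst.comp Computable.snd)
    · exact Computable.snd.comp Computable.snd
    · exact Computable.list_concat.comp (Computable.snd.comp (Computable.snd.comp Computable.fst))
        Computable.snd
  refine (Computable.nat_rec (f := fun p : List α × ℕ => p.2) Computable.snd
    (Computable.const []) hh).of_eq fun p => ?_
  obtain ⟨x, n⟩ := p
  simp only
  induction n with
  | zero => simp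
  | succ n ih =>
    simp only
    rw [ih, List.take_add_one]
    cases x[n]? <;> simp

omit [Inhabited α] in
theorem comp_stp {β : Type} [Primcodable β] {k : β → ℕ} {v u : β → List α} (hk : Computable k)
    (hv : Computable v) (hu : Computable u) : Computable (fun b => stp cT (k b) (v b) (u b)) := by
  unfold stp
  refine list_any (f := fun b => List.range ((u b).length + 1))
    (p := fun b l => ev cT (k b) (Encodable.encode (v b, (u b).take l))) ?_ ?_
  · exact Primrec.list_range.to_comp.comp (Computable.succ.comp (Computable.list_length.comp hu))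
  · refine (comp_ev cT).comp (hk.comp Computable.fst) ?_
    exact Computable.encode.comp ((hv.comp Computable.fst).pair
      (comp_take.comp (hu.comp Computable.fst) Computable.snd))

omit [Inhabited α] in
theorem comp_chainOK {β : Type} [Primcodable β] {k : β → ℕ} {D : β → List (List α)}
    (hk : Computable k) (hD : Computable D) : Computable (fun b => chainOK cT (k b) (D b)) := by
  unfold chainOK
  refine comp_not (list_any (f := fun b => List.range ((D b).length - 1))
    (p := fun b i => !(stp cT (k b) ((D b).getD (i + 1) []) ((D b).getD i []))) ?_ ?_)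
  · exact Primrec.list_range.to_comp.comp (c_sub.comp (Computable.list_length.comp hD)
      (Computable.const 1))
  · refine comp_not (comp_stp cT (hk.comp Computable.fst)
      (comp_getD (hD.comp Computable.fst) (Computable.succ.comp Computable.snd))
      (comp_getD (hD.comp Computable.fst) Computable.snd))

omit [Inhabited α] in
theorem comp_lensOK {β : Type} [Primcodable β] {D : β → List (List α)}
    (hD : Computable D) : Computable (fun b => lensOK (D b)) := by
  unfold lensOK
  refine comp_not (list_any (f := fun b => List.range ((D b).length))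
    (p := fun b i => decide (((D b).getD i []).length < (D b).length)) ?_ ?_)
  · exact Primrec.list_range.to_comp.comp (Computable.list_length.comp hD)
  · exact c_lt.comp (Computable.list_length.comp (comp_getD (hD.comp Computable.fst)
      Computable.snd)) (Computable.list_length.comp (hD.comp Computable.fst))

variable {T : (ℕ → α) → (ℕ → α)}

/-- the code `cT` describes the map `T` -/
def Desc (cT : Code) (T : (ℕ → α) → (ℕ → α)) : Prop :=
  ∀ (v : List α) (y : ℕ → α), pre (T y) v.length = v ↔
    ∃ u : List α, (∃ k, ev cT k (Encodable.encode (v, u)) = true) ∧ pre y u.length = u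

variable {cT}

omit [Inhabited α] in
theorem stp_sound (hT : Desc cT T) {k : ℕ} {v u : List α} (h : stp cT k v u = true)
    {y : ℕ → α} (hy : pre y u.length = u) : pre (T y) v.length = v := by
  unfold stp at h
  rw [List.any_eq_true] at h
  obtain ⟨l, -, hl⟩ := h
  exact (hT v y).2 ⟨u.take l, ⟨k, hl⟩, pre_take hy l⟩

omit [Inhabited α] in
theorem stp_complete (hT : Desc cT T) {v : List α} {y : ℕ → α} (h : pre (T y) v.length = v) :
    ∃ k n0, ∀ n, n0 ≤ n → stp cT k v (pre y n) = true := by
  obtain ⟨u, ⟨k, hk⟩, hu⟩ := (hT v y).1 h
  refine ⟨k, u.length, fun n hn => ?_⟩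
  unfold stp
  rw [List.any_eq_true]
  refine ⟨u.length, List.mem_range.2 (by rw [pre_length]; omega), ?_⟩
  rw [take_pre y hn, hu]
  exact hk

omit [Inhabited α] in
theorem stp_mono {k k' : ℕ} (hk : k ≤ k') {v u : List α} (h : stp cT k v u = true) :
    stp cT k' v u = true := by
  unfold stp at h ⊢
  rw [List.any_eq_true] at h ⊢
  obtain ⟨l, h1, h2⟩ := h
  exact ⟨l, h1, ev_mono hk h2⟩

omit [Inhabited α] in
theorem chain_sound (hT : Desc cT T) {k : ℕ} {D : List (List α)} (h : chainOK cT k D = true)
    {y : ℕ → α} (hy : pre y (D.getD 0 []).length = D.getD 0 []) :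
    ∀ i, i < D.length → pre (T^[i] y) (D.getD i []).length = D.getD i [] := by
  rw [chainOK_iff] at h
  intro i
  induction i with
  | zero => intro _; exact hy
  | succ i ih =>
    intro hi
    rw [Function.iterate_succ_apply']
    exact stp_sound hT (h i hi) (ih (by omega))

omit [Inhabited α] in
theorem chain_complete (hT : Desc cT T) (M : ℕ) : ∀ (n : ℕ) (y : ℕ → α),
    ∃ (k : ℕ) (D : List (List α)) (m : ℕ), D.length = n ∧ M ≤ m ∧
      chainOK cT k (pre y m :: D) = true ∧
      (∀ i, i < n → M ≤ (D.getD i []).length) := by
  intro n
  induction n with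
  | zero =>
    intro y
    refine ⟨0, [], M, rfl, le_rfl, ?_, fun i hi => absurd hi (Nat.not_lt_zero _)⟩
    rw [chainOK_iff]
    intro i hi
    simp at hi
  | succ n ih =>
    intro y
    obtain ⟨k, D, m, hD, hm, hc, hl⟩ := ih (T y)
    obtain ⟨k', n0, h0⟩ := stp_complete hT (v := pre (T y) m) (y := y) (by rw [pre_length])
    refine ⟨max k k', pre (T y) m :: D, max M n0, by simp [hD], le_max_left _ _, ?_, ?_⟩
    · rw [chainOK_iff] at hc ⊢
      intro i hi
      rcases i with _ | i
      · simp only [List.getD_cons_succ, List.getD_cons_zero]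
        exact stp_mono (le_max_right _ _) (h0 _ (le_max_right _ _))
      · simp only [List.getD_cons_succ]
        refine stp_mono (le_max_left _ _) ?_
        have := hc i (by simpa using hi)
        simpa only [List.getD_cons_succ] using this
    · intro i hi
      rcases i with _ | i
      · simp only [List.getD_cons_zero]
        rw [pre_length]
        exact hm
      · simp only [List.getD_cons_succ]
        exact hl i (by omega)

end chain

/-- sums computed from initial segments of the points of the orbit are right -/
theorem SD_eq {c : Code} {A C M c' : ℕ} {T : (ℕ → α) → (ℕ → α)} {D : List (List α)} {y : ℕ → α}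
    (h1 : ∀ i, i < D.length → pre (T^[i] y) (D.getD i []).length = D.getD i [])
    (h2 : ∀ i, i < D.length → D.length ≤ (D.getD i []).length) :
    ∀ w ≤ D.length / 2, ∀ s ≤ D.length / 2, SD c A C M c' D w s =
      SS T (fun s y => c' * GG c A C T M s y) y w s := by
  intro w hw s hs
  have key : ∀ i, i < D.length → FF c A C s (ext (D.getD i [])) = FF c A C s (T^[i] y) := by
    intro i hi
    refine FF_congr c A C fun j hj => ?_
    exact ext_of_cyl (h1 i hi) (by have := h2 i hi; omega)
  unfold SD SS
  rw [Finset.mul_sum]
  refine Finset.sum_congr rfl fun i hi => ?_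
  have hi := Finset.mem_range.1 hi
  simp only
  rw [GG_iter]
  congr 1
  unfold gg
  simp only
  have h3 : vv M s (fun i => FF c A C s (ext (D.getD i []))) (i + 1) =
      vv M s (fun i => FF c A C s (T^[i] y)) (i + 1) :=
    vv_congr fun j hj => key (i + 1 + j) (by omega)
  rw [key i (by omega), h3]

/-- the oscillation sets are uniformly effectively open, also in all parameters -/
theorem exists_test {c cT : Code} {T : (ℕ → α) → (ℕ → α)} (hT : Desc cT T) {ι : Type}
    [Primcodable ι] {A C M c' a N : ι → ℕ} (hA : Computable A) (hC : Computable C)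
    (hM : Computable M) (hc' : Computable c') (ha : Computable a) (hN : Computable N) :
    ∃ tst : ι × List α → ℕ → Bool, Computable₂ tst ∧
      ∀ i ω, ω ∈ WitAll T (fun s y => c' i * GG c (A i) (C i) T (M i) s y) (a i) (c' i * M i) (N i)
        ↔ ∃ x, (∃ n, tst (i, x) n = true) ∧ pre ω x.length = x := by
  set dec : ℕ → ℕ × List Tup × List (List α) := fun k =>
    (Encodable.decode k : Option (ℕ × List Tup × List (List α))).getD (0, [], []) with hdec
  have hdecc : Computable dec :=
    Computable.option_getD Computable.decode (Computable.const (0, [], []))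
  refine ⟨fun p n => (decide ((dec n).2.1.length = N p.1) &&
    (lensOK (p.2 :: (dec n).2.2) && (chainOK cT (dec n).1 (p.2 :: (dec n).2.2) &&
    ((dec n).2.1.foldl (stepb (a p.1) (c' p.1 * M p.1)
      (SD c (A p.1) (C p.1) (M p.1) (c' p.1) (p.2 :: (dec n).2.2))
      ((p.2 :: (dec n).2.2).length / 2)) (true, 0)).1))), ?_, ?_⟩
  · have hd : Computable (fun q : (ι × List α) × ℕ => dec q.2) := hdecc.comp Computable.snd
    have hk : Computable (fun q : (ι × List α) × ℕ => (dec q.2).1) := Computable.fst.comp hd
    have hw : Computable (fun q : (ι × List α) × ℕ => (dec q.2).2.1) :=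
      Computable.fst.comp (Computable.snd.comp hd)
    have hi : Computable (fun q : (ι × List α) × ℕ => q.1.1) :=
      Computable.fst.comp Computable.fst
    have hDD : Computable (fun q : (ι × List α) × ℕ => q.1.2 :: (dec q.2).2.2) :=
      Computable.list_cons.comp (Computable.snd.comp Computable.fst)
        (Computable.snd.comp (Computable.snd.comp hd))
    refine c_and.comp (c_eq.comp (Computable.list_length.comp hw) (hN.comp hi)) ?_
    refine c_and.comp (comp_lensOK hDD) (c_and.comp (comp_chainOK cT hk hDD) ?_)
    have hL : Computable (fun q : (ι × List α) × ℕ => (q.1.2 :: (dec q.2).2.2).length / 2) :=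
      (Primrec.nat_div.to_comp).comp (Computable.list_length.comp hDD) (Computable.const 2)
    refine comp_chk (β := (ι × List α) × ℕ)
      (S := fun q => SD c (A q.1.1) (C q.1.1) (M q.1.1) (c' q.1.1) (q.1.2 :: (dec q.2).2.2))
      (a := fun q => a q.1.1) (B := fun q => c' q.1.1 * M q.1.1)
      (L := fun q => (q.1.2 :: (dec q.2).2.2).length / 2) (w := fun q => (dec q.2).2.1)
      ?_ (ha.comp hi) (c_mul.comp (hc'.comp hi) (hM.comp hi)) hL hw
    have hi' : Computable (fun r : ((ι × List α) × ℕ) × (ℕ × ℕ) => r.1.1.1) :=
      hi.comp Computable.fst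
    exact comp_SD c (hA.comp hi') (hC.comp hi') (hM.comp hi') (hc'.comp hi')
      (hDD.comp Computable.fst) (Computable.fst.comp Computable.snd)
      (Computable.snd.comp Computable.snd)
  · intro i ω
    constructor
    · rintro ⟨w, hwl, L, hw⟩
      obtain ⟨k, D, m, hD, hm, hc, hl⟩ := chain_complete hT (2 * L + 2) (2 * L + 1) ω
      refine ⟨pre ω m, ⟨Encodable.encode (k, w, D), ?_⟩, by rw [pre_length]⟩
      have hd : dec (Encodable.encode (k, w, D)) = (k, w, D) := by
        simp only [hdec]
        rw [Encodable.encodek]
        rfl
      simp only [hd, Bool.and_eq_true, decide_eq_true_eq]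
      have hlen : (pre ω m :: D).length = 2 * L + 2 := by simp [hD]
      have h2 : ∀ i, i < (pre ω m :: D).length →
          (pre ω m :: D).length ≤ ((pre ω m :: D).getD i []).length := by
        intro i hi
        rw [hlen] at hi ⊢
        rcases i with _ | i
        · simp only [List.getD_cons_zero]
          rw [pre_length]
          exact hm
        · simp only [List.getD_cons_succ]
          exact hl i (by omega)
      have h1 := chain_sound hT hc (y := ω) (by
        simp only [List.getD_cons_zero]
        rw [pre_length])
      refine ⟨hwl, lensOK_iff.2 h2, hc, ?_⟩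
      rw [stepb_spec]
      refine ⟨rfl, ?_⟩
      refine Wit_congr ?_ w 0 (Wit.mono_L hw (by rw [hlen]; omega))
      intro w hw s hs
      exact (SD_eq h1 h2 w hw s hs).symm
    · rintro ⟨x, ⟨n, hn⟩, hx⟩
      simp only [Bool.and_eq_true, decide_eq_true_eq] at hn
      obtain ⟨hwl, hlens, hchain, hchk⟩ := hn
      rw [stepb_spec] at hchk
      refine ⟨(dec n).2.1, hwl, (x :: (dec n).2.2).length / 2, ?_⟩
      refine Wit_congr ?_ (dec n).2.1 0 hchk.2
      intro w hw s hs
      exact SD_eq (chain_sound hT hchain (y := ω) (by
        simp only [List.getD_cons_zero]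
        exact hx)) (lensOK_iff.1 hlens) w hw s hs

/-- functions of finitely many coordinates are measurable -/
theorem meas_of_dep [MeasurableSpace α] [MeasurableSingletonClass α] {g : (ℕ → α) → ℕ} {n : ℕ}
    (h : ∀ y y', (∀ i < n, y i = y' i) → g y = g y') : Measurable g := by
  have h1 : Measurable (fun (y : ℕ → α) (i : Fin n) => y i) :=
    measurable_pi_lambda _ fun i => measurable_pi_apply _
  have h2 : Measurable (fun z : Fin n → α =>
      g (fun i => if hi : i < n then z ⟨i, hi⟩ else default)) := measurable_of_countable _
  have h3 := h2.comp h1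
  have e : g = (fun z : Fin n → α => g (fun i => if hi : i < n then z ⟨i, hi⟩ else default)) ∘
      (fun (y : ℕ → α) (i : Fin n) => y i) := by
    funext y
    refine h _ _ fun i hi => ?_
    simp [hi]
  rw [e]
  exact h3

theorem meas_GG [MeasurableSpace α] [MeasurableSingletonClass α] (c : Code) (A C : ℕ)
    {T : (ℕ → α) → (ℕ → α)} (hT : Measurable T) (M s : ℕ) :
    Measurable (GG c A C T M s) := by
  have h0 : Measurable (fun (y : ℕ → α) (i : Fin (s + 2)) => FF c A C s (T^[i] y)) := by
    refine measurable_pi_lambda _ fun i => ?_
    exact (meas_of_dep (g := FF c A C s) (n := s) fun y y' h => FF_congr c A C h).comp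
      (hT.iterate i)
  have h2 : Measurable (fun z : Fin (s + 2) → ℕ =>
      gg M (fun _ i => if hi : i < s + 2 then z ⟨i, hi⟩ else 0) s 0) := measurable_of_countable _
  have e : GG c A C T M s = (fun z : Fin (s + 2) → ℕ =>
      gg M (fun _ i => if hi : i < s + 2 then z ⟨i, hi⟩ else 0) s 0) ∘
      (fun (y : ℕ → α) (i : Fin (s + 2)) => FF c A C s (T^[i] y)) := by
    funext y
    unfold GG gg
    simp only [Function.comp]
    congr 1
    have h3 : vv M s (fun i => FF c A C s (T^[i] y)) (0 + 1) =
        vv M s (fun i => if hi : i < s + 2 then FF c A C s (T^[i] y) else 0) (0 + 1) := by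
      refine vv_congr fun j hj => ?_
      rw [dif_pos (by omega)]
    rw [h3]
    simp
  rw [e]
  exact h2.comp h0

end Pool.Agent.Y588.EB
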